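import Pool.Agent.helper34.NTA.Spec

set_option autoImplicit false

namespace Pool.Agent.NTA

open Equiv

theorem RED_lam (c d : ZMod 10) (hc : ¬ KL c) (hd : ¬ KL d) (h : lam c = lam d) : c = d := by
  revert c d
  unfold KL lam
  decide

theorem RED_qpr {Q : Type} [Group Q] (r : Fin 5 → Q) (w : List (ZMod 10)) (h : ∀ c ∈ w, ¬ KL c) :
    qpr r w = ((w.map lam).map r).prod := by
  induction w with
  | nil => rfl
  | cons c w ih =>
    have hc : ¬ KL c := h c (by simp)
    simp only [qpr, if_neg hc, List.map_cons, List.prod_cons]
    rw [ih fun d hd => h d (by simp [hd])]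

theorem RED_chain (w : List (ZMod 10)) (h : ∀ c ∈ w, ¬ KL c) (hw : w.IsChain (· ≠ ·)) :
    (w.map lam).IsChain (· ≠ ·) := by
  induction w with
  | nil => simp
  | cons c w ih =>
    cases w with
    | nil => simp
    | cons d w =>
      simp only [List.map_cons]
      rw [List.isChain_cons_cons] at hw ⊢
      refine ⟨fun e => hw.1 (RED_lam c d (h c (by simp)) (h d (by simp)) e), ?_⟩
      exact ih (fun x hx => h x (by simp [hx])) hw.2

theorem RED : RED_stmt := by
  intro Q _ r hr hQ w hw hl hK
  have h1 : qpr r w = 1 → w = [] := by
    intro h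
    by_contra hne
    rw [RED_qpr r w hK] at h
    refine hQ (w.map lam) (by simpa using hne) (RED_chain w hK hw) (by simp; omega) h
  refine ⟨h1, ?_⟩
  intro c hc h
  rcases List.eq_nil_or_concat w with rfl | ⟨v, d, rfl⟩
  · exfalso
    refine hQ [lam c] (by simp) (by simp) (by simp) ?_
    simpa [qpr] using h.symm
  · rw [List.concat_eq_append] at hw hl hK h ⊢
    have hd : ¬ KL d := hK d (by simp)
    have hv : ∀ x ∈ v, ¬ KL x := fun x hx => hK x (by simp [hx])
    have hq : qpr r (v ++ [d]) = ((v.map lam).map r).prod * r (lam d) := by
      rw [RED_qpr r _ hK]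
      simp
    by_cases hcd : c = d
    · subst hcd
      rw [hq] at h
      have h2 : ((v.map lam).map r).prod = 1 := by
        simpa using h
      have h3 : v = [] := by
        by_contra hne
        refine hQ (v.map lam) (by simpa using hne) (RED_chain v hv ?_) ?_ h2
        · exact hw.left_of_append
        · simp at hl ⊢
          omega
      simp [h3]
    · exfalso
      have hlam : lam d ≠ lam c := fun e => hcd (RED_lam d c hd hc e).symm
      refine hQ ((v ++ [d]).map lam ++ [lam c]) (by simp) ?_ ?_ ?_
      · rw [List.isChain_append]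
        refine ⟨RED_chain _ hK hw, by simp, ?_⟩
        intro a ha b hb
        simp at ha hb
        subst ha
        subst hb
        exact hlam
      · simp at hl ⊢
        omega
      · rw [List.map_append, List.prod_append]
        rw [← RED_qpr r _ hK, h]
        simp [hr]

end Pool.Agent.NTA
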